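import Mathlib
import Pool.Agent.N658.SP.Bcp

/-!
# BCP/Irr: an irreducible weak-* compact set of functionals

Author: helper488 (project BCP of helper658, page MP_458f19_an).
-/

set_option autoImplicit false

open Set Filter Topology

namespace Pool.Agent.N488.BCP

open Pool.Agent.N658.SP.Bcp

universe u

theorem stmIrr : StmIrr.{u} := by
  classical
  intro Γ X _ _ e C hsurj
  -- the compact set
  let K0 : Set (WeakDual ℝ X) :=
    (WeakDual.toStrongDual ⁻¹' Metric.closedBall (0 : StrongDual ℝ X) C) ∩
      ⋂ g : Γ, {f : WeakDual ℝ X | f (e g) = 1 ∨ f (e g) = -1}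
  have hK0 : IsCompact K0 := by
    refine (WeakDual.isCompact_closedBall (𝕜 := ℝ) (0 : StrongDual ℝ X) C).inter_right ?_
    refine isClosed_iInter fun g => ?_
    have hc : Continuous fun f : WeakDual ℝ X => f (e g) := WeakDual.eval_continuous (e g)
    exact (isClosed_eq hc continuous_const).union (isClosed_eq hc continuous_const)
  have hval : ∀ f ∈ K0, ∀ g, f (e g) = 1 ∨ f (e g) = -1 := fun f hf g => mem_iInter.1 hf.2 g
  haveI : CompactSpace K0 := isCompact_iff_compactSpace.1 hK0
  let ρ : K0 → (Γ → Bool) := fun f g => decide ((f : WeakDual ℝ X) (e g) = 1)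
  have hev : ∀ x : X, Continuous fun f : K0 => (f : WeakDual ℝ X) x := fun x =>
    (WeakDual.eval_continuous x).comp continuous_subtype_val
  have hρc : Continuous ρ := by
    refine continuous_pi fun g => ?_
    rw [continuous_discrete_rng]
    intro b
    have key : ∀ f : K0, ((f : WeakDual ℝ X) (e g) = 1 ↔ 0 < (f : WeakDual ℝ X) (e g)) := by
      intro f
      rcases hval f f.2 g with h | h <;> rw [h] <;> norm_num
    cases b with
    | true =>
      have : (fun f : K0 => decide ((f : WeakDual ℝ X) (e g) = 1)) ⁻¹' {true}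
          = {f : K0 | 0 < (f : WeakDual ℝ X) (e g)} := by
        ext f
        simp [key f]
      rw [this]
      exact isOpen_lt continuous_const (hev _)
    | false =>
      have : (fun f : K0 => decide ((f : WeakDual ℝ X) (e g) = 1)) ⁻¹' {false}
          = {f : K0 | (f : WeakDual ℝ X) (e g) < 0} := by
        ext f
        have h := hval f f.2 g
        simp only [mem_preimage, mem_singleton_iff, decide_eq_false_iff_not, mem_setOf_eq]
        rcases h with h | h <;> rw [h] <;> norm_num
      rw [this]
      exact isOpen_lt (hev _) continuous_const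
  have hρs : Function.Surjective ρ := by
    intro s
    obtain ⟨f, hf, hfg⟩ := hsurj s
    refine ⟨⟨StrongDual.toWeakDual f, ⟨?_, ?_⟩⟩, ?_⟩
    · simpa [mem_closedBall_zero_iff] using hf
    · refine mem_iInter.2 fun g => ?_
      show f (e g) = 1 ∨ f (e g) = -1
      rw [hfg g]
      cases s g <;> simp
    · funext g
      show decide (f (e g) = 1) = s g
      rw [hfg g]
      cases s g <;> norm_num
  obtain ⟨E, hEc, hEs, hEm⟩ := exists_compact_surjective_zorn_subset hρc hρs
  haveI := hEc
  have hsig : ∀ (f : K0) (s : Γ → Bool), ρ f = s → ∀ g, (f : WeakDual ℝ X) (e g)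
      = if s g then 1 else -1 := by
    intro f s h g
    have h' := congrFun h g
    rcases hval f f.2 g with h1 | h1
    · have : ρ f g = true := by simp [ρ, h1]
      rw [← h', this, h1]; simp
    · have : ρ f g = false := by simp [ρ, h1]; norm_num
      rw [← h', this, h1]; simp
  refine ⟨{f | ∃ h : K0, h ∈ E ∧ f = WeakDual.toStrongDual (h : WeakDual ℝ X)}, ?_, ?_, ?_, ?_⟩
  · rintro f ⟨h, _, rfl⟩
    have := h.2.1
    simpa [mem_closedBall_zero_iff] using this
  · rintro f ⟨h, _, rfl⟩ g
    exact hval h h.2 g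
  · intro s
    have : s ∈ ρ '' E := by rw [hEs]; trivial
    obtain ⟨h, hE, hs⟩ := this
    exact ⟨WeakDual.toStrongDual (h : WeakDual ℝ X), ⟨h, hE, rfl⟩, fun g => hsig h s hs g⟩
  · rintro a f ⟨f', hf'E, rfl⟩ d hd
    let U : Set E := {h : E | |((h : K0) : WeakDual ℝ X) a - (f' : WeakDual ℝ X) a| < d}
    have hU : IsOpen U := by
      have hc : Continuous fun h : E => |((h : K0) : WeakDual ℝ X) a - (f' : WeakDual ℝ X) a| :=
        (((hev a).comp continuous_subtype_val).sub continuous_const).abs
      exact isOpen_lt hc continuous_const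
    have hne : Uᶜ ≠ univ := by
      intro h
      have : (⟨f', hf'E⟩ : E) ∈ Uᶜ := by rw [h]; trivial
      apply this
      show |(f' : WeakDual ℝ X) a - (f' : WeakDual ℝ X) a| < d
      simpa using hd
    have hcl : IsClosed Uᶜ := hU.isClosed_compl
    have hm := hEm Uᶜ hne hcl
    obtain ⟨s0, hs0⟩ : ∃ s0, s0 ∉ E.domRestrict ρ '' Uᶜ := by
      by_contra hcon
      push Not at hcon
      exact hm (eq_univ_of_forall hcon)
    have hclosed : IsClosed (E.domRestrict ρ '' Uᶜ) :=
      (hcl.isCompact.image (hρc.comp continuous_subtype_val)).isClosed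
    have hop : IsOpen (E.domRestrict ρ '' Uᶜ)ᶜ := hclosed.isOpen_compl
    rw [isOpen_pi_iff] at hop
    obtain ⟨F, u, hu, hsub⟩ := hop s0 hs0
    refine ⟨F, fun g hg t => ?_⟩
    have hmem : Function.update s0 g t ∈ (E.domRestrict ρ '' Uᶜ)ᶜ := by
      apply hsub
      intro i hi
      have : i ≠ g := fun h => hg (h ▸ hi)
      rw [Function.update_of_ne this]
      exact (hu i hi).2
    have : Function.update s0 g t ∈ ρ '' E := by rw [hEs]; trivial
    obtain ⟨h, hE, hs⟩ := this
    refine ⟨WeakDual.toStrongDual (h : WeakDual ℝ X), ⟨h, hE, rfl⟩, ?_, ?_⟩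
    · have := hsig h _ hs g
      simpa using this
    · by_contra hcon
      apply hmem
      exact ⟨⟨h, hE⟩, hcon, hs⟩

end Pool.Agent.N488.BCP
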